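import Mathlib

/-!
# The characters of SO(3) as polynomials
-/

set_option autoImplicit false

namespace Pool.Agent.U253.MF

open Polynomial

/-- the polynomial with `T k (2 + y + 1/y) = ∑_{|j| ≤ k} y^j` -/
noncomputable def T : ℕ → ℝ[X]
  | 0 => 1
  | 1 => X - C 1
  | k + 2 => (X - C 2) * T (k + 1) - T k

theorem T_facts (k : ℕ) : ((T k).Monic ∧ (T k).natDegree = k) ∧
    ((T (k + 1)).Monic ∧ (T (k + 1)).natDegree = k + 1) := by
  induction k with
  | zero =>
    refine ⟨⟨?_, ?_⟩, ?_, ?_⟩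
    · exact monic_one
    · exact natDegree_one
    · exact monic_X_sub_C 1
    · exact natDegree_X_sub_C 1
  | succ k ih =>
    refine ⟨ih.2, ?_⟩
    have h1 : ((X - C 2 : ℝ[X]) * T (k + 1)).Monic := (monic_X_sub_C 2).mul ih.2.1
    have h2 : ((X - C 2 : ℝ[X]) * T (k + 1)).natDegree = k + 2 := by
      rw [(monic_X_sub_C 2).natDegree_mul ih.2.1, natDegree_X_sub_C, ih.2.2]
      ring
    have h3 : (T k).degree < ((X - C 2 : ℝ[X]) * T (k + 1)).degree := by
      rw [degree_eq_natDegree ih.1.1.ne_zero, degree_eq_natDegree h1.ne_zero, h2, ih.1.2]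
      exact_mod_cast (by omega : k < k + 2)
    have e : T (k + 1 + 1) = (X - C 2) * T (k + 1) - T k := rfl
    rw [e]
    exact ⟨h1.sub_of_left h3, by rw [natDegree_sub_eq_left_of_natDegree_lt (by rw [h2, ih.1.2]; omega), h2]⟩

theorem expand (m : ℕ) : ∀ P : ℝ[X], P.natDegree ≤ m → ∃ c : ℕ → ℝ, (∀ k, m < k → c k = 0) ∧
    c m = P.coeff m ∧ P = ∑ k ∈ Finset.range (m + 1), C (c k) * T k := by
  induction m with
  | zero =>
    intro P hP
    refine ⟨fun k => if k = 0 then P.coeff 0 else 0, fun k hk => if_neg hk.ne', if_pos rfl, ?_⟩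
    rw [zero_add, Finset.sum_range_one]
    show P = C (if (0 : ℕ) = 0 then P.coeff 0 else 0) * 1
    rw [if_pos rfl, mul_one]
    exact eq_C_of_natDegree_le_zero hP
  | succ m ih =>
    intro P hP
    obtain ⟨h1, h2⟩ := (T_facts m).2
    have h3 : (P - C (P.coeff (m + 1)) * T (m + 1)).natDegree ≤ m := by
      rw [natDegree_le_iff_coeff_eq_zero]
      intro N hN
      rw [coeff_sub, coeff_C_mul]
      rcases Nat.lt_or_ge (m + 1) N with h4 | h4
      · rw [coeff_eq_zero_of_natDegree_lt (p := P) (lt_of_le_of_lt hP h4),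
          coeff_eq_zero_of_natDegree_lt (p := T (m + 1)) (by rw [h2]; exact h4), mul_zero, sub_zero]
      · have h5 : N = m + 1 := by omega
        subst h5
        have h6 : (T (m + 1)).coeff (m + 1) = 1 := by
          have := h1.coeff_natDegree
          rwa [h2] at this
        rw [h6, mul_one, sub_self]
    obtain ⟨c, hc1, -, hc3⟩ := ih _ h3
    refine ⟨fun k => if k = m + 1 then P.coeff (m + 1) else c k, fun k hk => ?_, if_pos rfl, ?_⟩
    · simp only
      rw [if_neg hk.ne', hc1 k (by omega)]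
    · rw [Finset.sum_range_succ]
      simp only [if_true]
      have h7 : ∑ k ∈ Finset.range (m + 1), C (if k = m + 1 then P.coeff (m + 1) else c k) * T k =
          ∑ k ∈ Finset.range (m + 1), C (c k) * T k := by
        refine Finset.sum_congr rfl fun k hk => ?_
        rw [if_neg (by have := Finset.mem_range.1 hk; omega)]
      rw [h7, ← hc3]
      ring

/-- the eigenvalues of the representation of dimension `2k+1` -/
noncomputable def adj (k : ℕ) (y : ℂ) : List ℂ := (List.range (2 * k + 1)).map fun j : ℕ => y ^ ((j : ℤ) - k)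

theorem adj_len (k : ℕ) (y : ℂ) : (adj k y).length = 2 * k + 1 := by
  unfold adj
  rw [List.length_map, List.length_range]

theorem range_sum {M : Type*} [AddCommMonoid M] (g : ℕ → M) (n : ℕ) :
    ((List.range n).map g).sum = ∑ j ∈ Finset.range n, g j := by
  induction n with
  | zero => simp
  | succ n ih => rw [List.range_succ, List.map_append, List.sum_append, ih, Finset.sum_range_succ]; simp

theorem adj_map {M : Type*} [AddCommMonoid M] (k : ℕ) (y : ℂ) (F : ℂ → M) :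
    ((adj k y).map F).sum = ∑ j ∈ Finset.range (2 * k + 1), F (y ^ ((j : ℤ) - k)) := by
  unfold adj
  rw [List.map_map, range_sum]
  rfl

theorem adj_sum_succ (k : ℕ) {y : ℂ} :
    (adj (k + 1) y).sum = (adj k y).sum + (y ^ (k + 1) + (y⁻¹) ^ (k + 1)) := by
  have h := fun k => adj_map k y fun a => a
  simp only [List.map_id'] at h
  rw [h, h, show 2 * (k + 1) + 1 = (2 * k + 1) + 1 + 1 by ring, Finset.sum_range_succ, Finset.sum_range_succ']
  have e1 : ∑ j ∈ Finset.range (2 * k + 1), y ^ (((j + 1 : ℕ) : ℤ) - ((k + 1 : ℕ) : ℤ)) =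
      ∑ j ∈ Finset.range (2 * k + 1), y ^ ((j : ℤ) - k) := by
    refine Finset.sum_congr rfl fun j _ => ?_
    congr 1
    push_cast
    ring
  have e2 : y ^ (((0 : ℕ) : ℤ) - ((k + 1 : ℕ) : ℤ)) = (y⁻¹) ^ (k + 1) := by
    rw [show ((0 : ℕ) : ℤ) - ((k + 1 : ℕ) : ℤ) = -((k + 1 : ℕ) : ℤ) by push_cast; ring, zpow_neg,
      zpow_natCast, inv_pow]
  have e3 : y ^ (((2 * k + 1 + 1 : ℕ) : ℤ) - ((k + 1 : ℕ) : ℤ)) = y ^ (k + 1) := by
    rw [show ((2 * k + 1 + 1 : ℕ) : ℤ) - ((k + 1 : ℕ) : ℤ) = ((k + 1 : ℕ) : ℤ) by push_cast; ring,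
      zpow_natCast]
  rw [e1, e2, e3]
  ring

theorem adj_rec (k : ℕ) {y : ℂ} (hy : y ≠ 0) :
    (adj (k + 2) y).sum + (adj k y).sum = (y + y⁻¹) * (adj (k + 1) y).sum := by
  induction k with
  | zero =>
    have h0 : (adj 0 y).sum = 1 := by simp [adj]
    rw [adj_sum_succ, adj_sum_succ, h0]
    have h3 : y * y⁻¹ = 1 := mul_inv_cancel₀ hy
    linear_combination (-2) * h3
  | succ k ih =>
    rw [adj_sum_succ (k + 2), adj_sum_succ k, show k + 1 + 1 = k + 2 from rfl]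
    have h1 := adj_sum_succ (k + 1) (y := y)
    rw [show k + 1 + 1 = k + 2 from rfl] at h1
    have h2 : (y + y⁻¹) * (y ^ (k + 2) + (y⁻¹) ^ (k + 2)) =
        y ^ (k + 3) + (y⁻¹) ^ (k + 3) + (y ^ (k + 1) + (y⁻¹) ^ (k + 1)) := by
      have h3 : y * y⁻¹ = 1 := mul_inv_cancel₀ hy
      have h4 : y * (y⁻¹) ^ (k + 2) = (y⁻¹) ^ (k + 1) := by
        rw [pow_succ, mul_comm ((y⁻¹) ^ (k + 1)), ← mul_assoc, h3, one_mul]
      have h5 : y⁻¹ * y ^ (k + 2) = y ^ (k + 1) := by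
        rw [pow_succ, mul_comm (y ^ (k + 1)), ← mul_assoc, inv_mul_cancel₀ hy, one_mul]
      rw [add_mul, mul_add, mul_add, h4, h5]
      ring
    rw [h1] at ih ⊢
    linear_combination ih - h2

theorem T_eval {y : ℂ} (hy : y ≠ 0) {u : ℝ} (hu : (u : ℂ) = 2 + y + y⁻¹) (k : ℕ) :
    (((T k).eval u : ℝ) : ℂ) = (adj k y).sum ∧ (((T (k + 1)).eval u : ℝ) : ℂ) = (adj (k + 1) y).sum := by
  induction k with
  | zero =>
    have h0 : (adj 0 y).sum = 1 := by simp [adj]
    refine ⟨?_, ?_⟩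
    · rw [h0]
      show (((1 : ℝ[X]).eval u : ℝ) : ℂ) = 1
      simp
    · rw [adj_sum_succ, h0]
      show (((X - C 1 : ℝ[X]).eval u : ℝ) : ℂ) = _
      rw [eval_sub, eval_X, eval_C]
      push_cast
      rw [hu]
      ring
  | succ k ih =>
    refine ⟨ih.2, ?_⟩
    have h1 := adj_rec k hy
    have e : T (k + 1 + 1) = (X - C 2) * T (k + 1) - T k := rfl
    rw [e, eval_sub, eval_mul, eval_sub, eval_X, eval_C]
    push_cast
    rw [ih.1, ih.2, hu]
    linear_combination -h1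

/-- the value of a polynomial -/
theorem eval_expand {m : ℕ} {P : ℝ[X]} {c : ℕ → ℝ} (hP : P = ∑ k ∈ Finset.range (m + 1), C (c k) * T k)
    {y : ℂ} (hy : y ≠ 0) {u : ℝ} (hu : (u : ℂ) = 2 + y + y⁻¹) :
    ((P.eval u : ℝ) : ℂ) = ∑ k ∈ Finset.range (m + 1), (c k : ℂ) * (adj k y).sum := by
  rw [hP, eval_finsetSum]
  push_cast
  refine Finset.sum_congr rfl fun k _ => ?_
  rw [eval_mul, eval_C]
  push_cast
  rw [(T_eval hy hu k).1]

theorem adj_ne {k : ℕ} {y : ℂ} (hy : y ≠ 0) : ∀ a ∈ adj k y, a ≠ 0 := by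
  intro a ha
  unfold adj at ha
  obtain ⟨j, -, rfl⟩ := List.mem_map.1 ha
  exact zpow_ne_zero _ hy

theorem adj_inv (k : ℕ) (y : ℂ) : ((adj k y).map fun a => a⁻¹).Perm (adj k y) := by
  have h1 : ((adj k y).map fun a => a⁻¹) = (adj k y).reverse := by
    unfold adj
    refine List.ext_getElem (by simp) fun i h1 h2 => ?_
    simp only [List.length_map, List.length_range, List.getElem_map, List.getElem_range,
      List.getElem_reverse] at h1 h2 ⊢
    rw [← zpow_neg]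
    congr 1
    rw [show 2 * k + 1 - 1 - i = 2 * k - i by omega, Nat.cast_sub (by omega)]
    push_cast
    ring
  rw [h1]
  exact List.reverse_perm _

theorem adj_herm (k : ℕ) {y : ℂ} (hy : ‖y‖ = 1 ∨ (starRingEnd ℂ) y = y) :
    ((adj k y).map fun a => ((starRingEnd ℂ) a)⁻¹).Perm (adj k y) := by
  rcases hy with hy | hy
  · have h1 : ((adj k y).map fun a => ((starRingEnd ℂ) a)⁻¹) = adj k y := by
      unfold adj
      rw [List.map_map]
      refine List.map_congr_left fun j _ => ?_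
      have h2 : ((starRingEnd ℂ) y)⁻¹ = y := by
        have h3 : y * (starRingEnd ℂ) y = 1 := by
          rw [Complex.mul_conj, Complex.normSq_eq_norm_sq, hy]
          simp
        exact inv_eq_of_mul_eq_one_left h3
      rw [Function.comp_apply, map_zpow₀, ← inv_zpow, h2]
    rw [h1]
  · have h1 : ((adj k y).map fun a => ((starRingEnd ℂ) a)⁻¹) = (adj k y).map fun a => a⁻¹ := by
      refine List.map_congr_left fun a ha => ?_
      unfold adj at ha
      obtain ⟨j, -, rfl⟩ := List.mem_map.1 ha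
      rw [map_zpow₀, hy]
    rw [h1]
    exact adj_inv k y

theorem adj_norm {k : ℕ} {y : ℂ} {R : ℝ} (hR : 1 ≤ R) (h1 : ‖y‖ ≤ R) (h2 : ‖y‖⁻¹ ≤ R) :
    ∀ a ∈ adj k y, ‖a‖ ≤ R ^ k := by
  intro a ha
  unfold adj at ha
  obtain ⟨j, hj, rfl⟩ := List.mem_map.1 ha
  rw [List.mem_range] at hj
  rw [norm_zpow]
  rcases le_total (k : ℤ) j with h | h
  · obtain ⟨i, hi⟩ := Int.eq_ofNat_of_zero_le (sub_nonneg.2 h)
    rw [hi, zpow_natCast]
    exact (pow_le_pow_left₀ (norm_nonneg _) h1 i).trans (pow_le_pow_right₀ hR (by omega))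
  · obtain ⟨i, hi⟩ := Int.eq_ofNat_of_zero_le (sub_nonneg.2 h)
    rw [show (j : ℤ) - k = -(i : ℤ) by omega, zpow_neg, zpow_natCast, ← inv_pow]
    exact (pow_le_pow_left₀ (inv_nonneg.2 (norm_nonneg _)) h2 i).trans (pow_le_pow_right₀ hR (by omega))

theorem range_prod {M : Type*} [CommMonoid M] (g : ℕ → M) (n : ℕ) :
    ((List.range n).map g).prod = ∏ j ∈ Finset.range n, g j := by
  induction n with
  | zero => simp
  | succ n ih => rw [List.range_succ, List.map_append, List.prod_append, ih, Finset.prod_range_succ]; simp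

theorem adj_prod (k : ℕ) (y : ℂ) (F : ℂ → ℂ) :
    ((adj k y).map F).prod = ∏ j ∈ Finset.range (2 * k + 1), F (y ^ ((j : ℤ) - k)) := by
  unfold adj
  rw [List.map_map, range_prod]
  rfl

theorem adj_prod_inv (k : ℕ) (y : ℂ) (F : ℂ → ℂ) :
    ((adj k y).map fun a => F a⁻¹).prod = ((adj k y).map F).prod := by
  have h := ((adj_inv k y).map F).prod_eq
  rw [List.map_map] at h
  exact h

theorem adj_pow (k e : ℕ) (y : ℂ) : ((adj k y).map fun a => a ^ e) = adj k (y ^ e) := by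
  unfold adj
  rw [List.map_map]
  refine List.map_congr_left fun j _ => ?_
  rw [Function.comp_apply, ← zpow_natCast, ← zpow_natCast, ← zpow_mul, ← zpow_mul, mul_comm]

/-- `{a, b}` is the set of the conjugate inverses -/
def Uni (a b : ℂ) : Prop := (‖a‖ = 1 ∧ ‖b‖ = 1) ∨ (starRingEnd ℂ) a * b = 1

theorem Uni.ne {a b : ℂ} (h : Uni a b) : a ≠ 0 ∧ b ≠ 0 := by
  rcases h with ⟨h1, h2⟩ | h
  · exact ⟨fun h => by simp [h] at h1, fun h => by simp [h] at h2⟩
  · exact ⟨fun h0 => by simp [h0] at h, fun h0 => by simp [h0] at h⟩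

theorem Uni.pow {a b : ℂ} (h : Uni a b) (n : ℕ) : Uni (a ^ n) (b ^ n) := by
  rcases h with ⟨h1, h2⟩ | h
  · left
    rw [norm_pow, norm_pow, h1, h2, one_pow]
    exact ⟨rfl, rfl⟩
  · right
    rw [map_pow, ← mul_pow, h, one_pow]

theorem Uni.real {a b : ℂ} (h : Uni a b) : ‖a / b‖ = 1 ∨ (starRingEnd ℂ) (a / b) = a / b := by
  rcases h with ⟨h1, h2⟩ | h
  · left
    rw [norm_div, h1, h2, div_one]
  · right
    have e : a / b = a * (starRingEnd ℂ) a := by
      have hb : b = ((starRingEnd ℂ) a)⁻¹ := (inv_eq_of_mul_eq_one_right h).symm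
      rw [hb, div_inv_eq_mul]
    rw [e, map_mul, Complex.conj_conj, mul_comm]

/-- the eigenvalue and the parameter -/
theorem Uni.sq {a b : ℂ} (h : Uni a b) : ((‖a + b‖ ^ 2 : ℝ) : ℂ) = 2 + a / b + (a / b)⁻¹ := by
  obtain ⟨ha, hb⟩ := h.ne
  have h1 : ((‖a + b‖ ^ 2 : ℝ) : ℂ) = (a + b) * (starRingEnd ℂ) (a + b) := by
    rw [Complex.mul_conj, Complex.normSq_eq_norm_sq]
  rw [h1, map_add]
  rcases h with ⟨h1, h2⟩ | h
  · have h3 : (starRingEnd ℂ) a = a⁻¹ := by
      have : a * (starRingEnd ℂ) a = 1 := by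
        rw [Complex.mul_conj, Complex.normSq_eq_norm_sq, h1]
        simp
      exact eq_inv_of_mul_eq_one_right this
    have h4 : (starRingEnd ℂ) b = b⁻¹ := by
      have : b * (starRingEnd ℂ) b = 1 := by
        rw [Complex.mul_conj, Complex.normSq_eq_norm_sq, h2]
        simp
      exact eq_inv_of_mul_eq_one_right this
    rw [h3, h4]
    field_simp
    ring
  · have h3 : (starRingEnd ℂ) a = b⁻¹ := eq_inv_of_mul_eq_one_left h
    have h4 : (starRingEnd ℂ) b = a⁻¹ := by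
      have := congrArg (starRingEnd ℂ) h
      rw [map_mul, Complex.conj_conj, map_one] at this
      exact eq_inv_of_mul_eq_one_right this
    rw [h3, h4]
    field_simp
    ring

/-- the size of the parameters -/
theorem Uni.size {a b : ℂ} (h : Uni a b) : 1 ≤ max ‖a‖ ‖b‖ ∧
    |Real.log ‖a / b‖| = 2 * Real.log (max ‖a‖ ‖b‖) ∧ ‖a / b‖ ≤ max ‖a‖ ‖b‖ ^ 2 ∧
    ‖a / b‖⁻¹ ≤ max ‖a‖ ‖b‖ ^ 2 ∧ max ‖a‖ ‖b‖ ≤ max 1 ‖a + b‖ ∧ (max ‖a‖ ‖b‖ ≤ 1 → ‖a + b‖ ≤ 2) ∧
    (‖a + b‖ ≤ 2 → max ‖a‖ ‖b‖ ≤ 1) := by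
  obtain ⟨ha, hb⟩ := h.ne
  have ha' := norm_pos_iff.2 ha
  have hb' := norm_pos_iff.2 hb
  have hsum : max ‖a‖ ‖b‖ ≤ 1 → ‖a + b‖ ≤ 2 := by
    intro h1
    have := norm_add_le a b
    have h2 := (le_max_left ‖a‖ ‖b‖).trans h1
    have h3 := (le_max_right ‖a‖ ‖b‖).trans h1
    linarith
  have hab : ‖a / b‖ ≤ max ‖a‖ ‖b‖ ^ 2 ∧ ‖a / b‖⁻¹ ≤ max ‖a‖ ‖b‖ ^ 2 ∧ ‖a‖ * ‖b‖ = 1 := by
    rcases h with ⟨h1, h2⟩ | h
    · rw [norm_div, h1, h2]
      norm_num
    · have h1 : ‖a‖ * ‖b‖ = 1 := by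
        have := congrArg norm h
        rwa [norm_mul, Complex.norm_conj, norm_one] at this
      have h2 : ‖a‖ = ‖b‖⁻¹ := eq_inv_of_mul_eq_one_left h1
      refine ⟨?_, ?_, h1⟩
      · rw [norm_div, div_eq_mul_inv, ← h2, ← pow_two]
        exact pow_le_pow_left₀ ha'.le (le_max_left _ _) 2
      · rw [norm_div, inv_div, div_eq_mul_inv, show ‖a‖⁻¹ = ‖b‖ by rw [h2, inv_inv], ← pow_two]
        exact pow_le_pow_left₀ hb'.le (le_max_right _ _) 2
  obtain ⟨h1, h2, h3⟩ := hab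
  have hM : 1 ≤ max ‖a‖ ‖b‖ := by
    by_contra hlt
    rw [not_le, max_lt_iff] at hlt
    nlinarith [hlt.1, hlt.2]
  have hMp : 0 < max ‖a‖ ‖b‖ := zero_lt_one.trans_le hM
  have hlog : |Real.log ‖a / b‖| = 2 * Real.log (max ‖a‖ ‖b‖) := by
    have e : Real.log ‖b‖ = -Real.log ‖a‖ := by
      rw [show ‖b‖ = ‖a‖⁻¹ from eq_inv_of_mul_eq_one_right h3, Real.log_inv]
    rw [norm_div, Real.log_div ha'.ne' hb'.ne', e, sub_neg_eq_add, ← two_mul, abs_mul,
      abs_of_pos (by norm_num : (0 : ℝ) < 2)]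
    congr 1
    rcases le_total ‖a‖ ‖b‖ with h4 | h4
    · rw [max_eq_right h4, e, abs_of_nonpos]
      have := Real.log_le_log ha' h4
      rw [e] at this
      linarith
    · rw [max_eq_left h4, abs_of_nonneg]
      have := Real.log_le_log hb' h4
      rw [e] at this
      linarith
  have hupper : max ‖a‖ ‖b‖ ≤ max 1 ‖a + b‖ ∧ (‖a + b‖ ≤ 2 → max ‖a‖ ‖b‖ ≤ 1) := by
    rcases h with ⟨h5, h6⟩ | h
    · rw [h5, h6, max_self]
      exact ⟨le_max_left _ _, fun _ => le_rfl⟩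
    · have hs : ‖a + b‖ = ‖a‖ + ‖b‖ := by
        have e : a + b = a * (1 + ((‖b‖ ^ 2 : ℝ) : ℂ)) := by
          have e1 : ((‖b‖ ^ 2 : ℝ) : ℂ) = b * (starRingEnd ℂ) b := by
            rw [Complex.mul_conj, Complex.normSq_eq_norm_sq]
          have e2 : a * (starRingEnd ℂ) b = 1 := by
            have := congrArg (starRingEnd ℂ) h
            rwa [map_mul, Complex.conj_conj, map_one] at this
          rw [e1]
          linear_combination (-b) * e2
        have e3 : ‖(1 : ℂ) + ((‖b‖ ^ 2 : ℝ) : ℂ)‖ = 1 + ‖b‖ ^ 2 := by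
          rw [← Complex.ofReal_one, ← Complex.ofReal_add, Complex.norm_real, Real.norm_of_nonneg (by positivity)]
        rw [e, norm_mul, e3]
        nlinarith [h3]
      refine ⟨?_, fun h7 => ?_⟩
      · refine le_trans ?_ (le_max_right _ _)
        rw [hs]
        exact max_le (by linarith) (by linarith)
      · rw [hs] at h7
        have h8 : ‖a‖ = 1 := by nlinarith [sq_nonneg (‖a‖ - ‖b‖), sq_nonneg (‖a‖ - 1)]
        have h9 : ‖b‖ = 1 := by rwa [h8, one_mul] at h3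
        rw [h8, h9, max_self]
  exact ⟨hM, hlog, h1, h2, hupper.1, hsum, hupper.2⟩

end Pool.Agent.U253.MF
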