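import Pool.Agent.U253.NFD.Face

/-!
# Relations between Euler products over several number fields
-/

set_option autoImplicit false

namespace Pool.Agent.U253.MF

open Filter Topology Complex Pool.Agent.N210.FV Pool.Agent.N210.FW Pool.Agent.N845.SP
open Pool.Agent.U253.SPL Pool.Agent.U253.GAP Pool.Agent.U253.NFD
open Pool.Agent.U253.EEA (Half FEq mo_app)

variable {Q : Type} [Fintype Q] {ι : Q → Type} {n : Q → ℕ} {c : Q → ℝ} {S : Finset ℕ}
  {V : ∀ q, ℕ → Finset (ι q)} {f : ∀ q, ι q → ℕ} {E : ∀ q, ι q → List ℂ}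

/-- all the parameters above `p` -/
noncomputable def LL (V : ∀ q, ℕ → Finset (ι q)) (f : ∀ q, ι q → ℕ) (E : ∀ q, ι q → List ℂ)
    (p : ℕ) (q : Q) : List ℂ := lstE (V q p) (f q) (E q)

theorem lstE_prod {κ : Type} (P : Finset κ) (f : κ → ℕ) (E : κ → List ℂ) (F : ℂ → ℂ) :
    ((lstE P f E).map F).prod = ∏ v ∈ P, ((E v).map fun a => ((blk (f v) a).map F).prod).prod := by
  unfold lstE
  rw [prod_flat, Finset.prod_map_toList]
  exact Finset.prod_congr rfl fun v _ => prod_flat _ _ _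

theorem gap_multi {m m' : Q → List ℂ} {N D N' D' : Q → ℂ → ℂ} {g : ℕ → ℝ} {B : ℝ}
    (hf : ∀ q, ∀ p : ℕ, p.Prime → p ∉ S → ∀ v ∈ V q p, 0 < f q v)
    (hlen : ∀ q, ∀ p : ℕ, p.Prime → p ∉ S → (LL V f E p q).length ≤ n q)
    (hherm : ∀ q, ∀ p : ℕ, p.Prime → p ∉ S → ∀ v ∈ V q p,
      ((E q v).map fun a => ((starRingEnd ℂ) a)⁻¹).Perm (E q v))
    (hL : ∀ q, HK S (fun p s => ∏ v ∈ V q p,
      ((E q v).map fun a => (1 - a * ((p : ℂ) ^ (-s)) ^ f q v)⁻¹).prod) (N q) (D q))
    (hL' : ∀ q, HK S (fun p s => ∏ v ∈ V q p,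
      ((E q v).map fun a => (1 - a⁻¹ * ((p : ℂ) ^ (-s)) ^ f q v)⁻¹).prod) (N' q) (D' q))
    (hF : ∀ q, FEq S (m q) (m' q) (N q) (D q) (N' q) (D' q))
    (hg0 : ∀ p, 0 ≤ g p) (hlit : Lit S g)
    (hbd : ∀ p : ℕ, p.Prime → p ∉ S →
      ((∀ q, ∀ v ∈ V q p, ∀ a ∈ E q v, ‖a‖ ≤ B) ∧
        ‖∑ q, (c q : ℂ) * ∑ v ∈ (V q p).filter (fun v => f q v = 1), (E q v).sum‖ ≤ g p) ∨
      ∀ q, ∀ v ∈ V q p, ∀ a ∈ E q v, ‖a‖ ≤ g p ^ f q v) :
    (∀ p : ℕ, p.Prime → p ∉ S → ∀ k : ℕ,
      ∑ q, (c q : ℂ) * ((LL V f E p q).map fun b => b ^ (k + 1)).sum = 0) ∧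
    ∀ z : ℂ, ∑ q, c q * (((mo (gi (m q)) (1 - z) : ℝ) + mo (gi (m' q)) (1 - z)) -
      (mo (gi (m q)) z + mo (gi (m' q)) z)) = 0 := by
  classical
  have hdual : ∀ q, ∀ p : ℕ, p.Prime → p ∉ S → ∀ v ∈ V q p, ∀ a ∈ E q v, ∃ a' ∈ E q v,
      ‖a⁻¹‖ = ‖a'‖ := by
    intro q p hp hpS v hv a ha
    have h1 : ((starRingEnd ℂ) a)⁻¹ ∈ E q v :=
      (hherm q p hp hpS v hv).mem_iff.1 (List.mem_map.2 ⟨a, ha, rfl⟩)
    exact ⟨_, h1, by rw [norm_inv, norm_inv, Complex.norm_conj]⟩
  have hconj : ∀ q, ∀ p : ℕ, p.Prime → p ∉ S → ∀ v ∈ V q p,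
      ((E q v).map fun a => a⁻¹).sum = (starRingEnd ℂ) (E q v).sum := by
    intro q p hp hpS v hv
    have h1 := ((hherm q p hp hpS v hv).map fun y => y⁻¹).sum_eq
    rw [List.map_map] at h1
    rw [map_list_sum, ← h1]
    congr 1
    refine List.map_congr_left fun a _ => ?_
    simp
  -- the bounds
  have hbnd : ∀ p : ℕ, p.Prime → p ∉ S → ∀ R : ℝ, 0 ≤ R → ∀ q,
      (∀ v ∈ V q p, ∀ a ∈ E q v, ‖a‖ ≤ R ^ f q v) → ∀ i,
      ‖(LL V f E p q).getD i 0‖ ≤ R ∧ ‖((LL V f E p q).getD i 0)⁻¹‖ ≤ R := by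
    intro p hp hpS R hR q h1 i
    by_cases hi : i < (LL V f E p q).length
    · have hb : (LL V f E p q).getD i 0 ∈ LL V f E p q := by
        rw [List.getD_eq_getElem _ _ hi]
        exact List.getElem_mem hi
      obtain ⟨v, hv, a, ha, hb⟩ := mem_lstE.1 hb
      have hfv := hf q p hp hpS v hv
      refine ⟨norm_root hfv hR (blk_pow hfv hb) (h1 v hv a ha), ?_⟩
      obtain ⟨a', ha', h3⟩ := hdual q p hp hpS v hv a ha
      refine norm_root (y := a⁻¹) hfv hR ?_ ?_
      · rw [inv_pow, blk_pow hfv hb]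
      · rw [h3]
        exact h1 v hv a' ha'
    · rw [not_lt] at hi
      rw [List.getD_eq_default _ _ hi, inv_zero, norm_zero]
      exact ⟨hR, hR⟩
  have hps : ∀ p : ℕ, p.Prime → p ∉ S → ∀ q (k : ℕ),
      ps (Finset.range (n q)) (fun p i => (LL V f E p q).getD i 0) p (k + 1) =
      ((LL V f E p q).map fun b => b ^ (k + 1)).sum := by
    intro p hp hpS q k
    exact sum_pad (hlen q p hp hpS) (F := fun b => b ^ (k + 1)) (by simp)
  have hps' : ∀ p : ℕ, p.Prime → p ∉ S → ∀ q,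
      ps (Finset.range (n q)) (fun p i => ((LL V f E p q).getD i 0)⁻¹) p 1 =
      ((LL V f E p q).map fun b => b⁻¹).sum := by
    intro p hp hpS q
    have := sum_pad (hlen q p hp hpS) (F := fun b => (b⁻¹) ^ 1) (by simp)
    simp only [pow_one] at this
    rw [← this]
    unfold ps
    simp only [pow_one]
  have hone : ∀ p : ℕ, p.Prime → p ∉ S → ∀ q, ((LL V f E p q).map fun b => b).sum =
      ∑ v ∈ (V q p).filter (fun v => f q v = 1), (E q v).sum := by
    intro p hp hpS q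
    unfold LL
    rw [lstE_sum, Finset.sum_filter]
    refine Finset.sum_congr rfl fun v hv => ?_
    have h1 : ∀ a : ℂ, ((blk (f q v) a).map fun b => b).sum = if f q v = 1 then a else 0 := by
      intro a
      rw [List.map_id']
      exact blk_sum (hf q p hp hpS v hv) _
    simp only [h1]
    by_cases h2 : f q v = 1
    · simp only [if_pos h2, List.map_id']
    · simp only [if_neg h2, List.map_const', List.sum_replicate, smul_zero]
  have hone' : ∀ p : ℕ, p.Prime → p ∉ S → ∀ q, ((LL V f E p q).map fun b => b⁻¹).sum =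
      (starRingEnd ℂ) (∑ v ∈ (V q p).filter (fun v => f q v = 1), (E q v).sum) := by
    intro p hp hpS q
    unfold LL
    rw [lstE_sum, Finset.sum_filter, map_sum]
    refine Finset.sum_congr rfl fun v hv => ?_
    simp only [blk_sum_inv (hf q p hp hpS v hv)]
    by_cases h2 : f q v = 1
    · simp only [if_pos h2]
      exact hconj q p hp hpS v hv
    · simp only [if_neg h2, List.map_const', List.sum_replicate, smul_zero, map_zero]
  have hH : ∀ q, Half S (n q) (fun p i => (LL V f E p q).getD i 0) (N q) (D q) := by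
    intro q
    obtain ⟨h1, h2, h3, h4, h5⟩ := hL q
    refine ⟨h1, h2, h3, h4, fun s hs => ?_⟩
    refine (h5 s hs).congr fun X => Finset.prod_congr rfl fun p hp => ?_
    obtain ⟨hp1, hpS⟩ := (Finset.mem_filter.1 hp).2
    rw [prod_pad (hlen q p hp1 hpS) (F := fun b => (1 - b * (p : ℂ) ^ (-s))⁻¹) (by simp)]
    unfold LL
    rw [lstE_prod]
    refine Finset.prod_congr rfl fun v hv => ?_
    congr 1
    refine List.map_congr_left fun a _ => ?_
    rw [blk_prod (hf q p hp1 hpS v hv)]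
  have hH' : ∀ q, Half S (n q) (fun p i => ((LL V f E p q).getD i 0)⁻¹) (N' q) (D' q) := by
    intro q
    obtain ⟨h1, h2, h3, h4, h5⟩ := hL' q
    refine ⟨h1, h2, h3, h4, fun s hs => ?_⟩
    refine (h5 s hs).congr fun X => Finset.prod_congr rfl fun p hp => ?_
    obtain ⟨hp1, hpS⟩ := (Finset.mem_filter.1 hp).2
    rw [prod_pad (hlen q p hp1 hpS) (F := fun b => (1 - b⁻¹ * (p : ℂ) ^ (-s))⁻¹) (by simp)]
    unfold LL
    rw [lstE_prod]
    refine Finset.prod_congr rfl fun v hv => ?_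
    congr 1
    refine List.map_congr_left fun a _ => ?_
    rw [blk_prod_inv (hf q p hp1 hpS v hv)]
  obtain ⟨h1, h2⟩ := gap_gen (n := n) (c := c) (g := g) (B := max B 1) hH hH' hF
    (fun j p _ _ i _ => rfl) hg0 hlit (fun p hp hpS => by
      rcases hbd p hp hpS with ⟨a1, a2⟩ | a1
      · left
        refine ⟨fun j i _ => hbnd p hp hpS (max B 1) (zero_le_one.trans (le_max_right _ _)) j
          (fun v hv a ha => ?_) i, ?_, ?_⟩
        · refine ((a1 j v hv a ha).trans (le_max_left B 1)).trans ?_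
          exact le_self_pow₀ (le_max_right B 1) (hf j p hp hpS v hv).ne'
        · have e : ∀ j, ps (Finset.range (n j))
              (fun p i => (LL V f E p j).getD i 0) p 1 =
              ((LL V f E p j).map fun b => b).sum := by
            intro j
            have := hps p hp hpS j 0
            simpa only [zero_add, pow_one] using this
          simp only [e]
          rw [Finset.sum_congr rfl fun q _ => by rw [hone p hp hpS q]]
          exact a2
        · simp only [hps' p hp hpS]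
          rw [Finset.sum_congr rfl fun q _ => by rw [hone' p hp hpS q]]
          have e : ∑ q, (c q : ℂ) * (starRingEnd ℂ) (∑ v ∈ (V q p).filter (fun v => f q v = 1), (E q v).sum) =
              (starRingEnd ℂ) (∑ q, (c q : ℂ) * ∑ v ∈ (V q p).filter (fun v => f q v = 1), (E q v).sum) := by
            rw [map_sum]
            refine Finset.sum_congr rfl fun q _ => ?_
            rw [map_mul, Complex.conj_ofReal]
          rw [e, Complex.norm_conj]
          exact a2
      · right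
        intro j i _
        exact hbnd p hp hpS (g p) (hg0 p) j (a1 j) i)
  refine ⟨fun p hp hpS k => ?_, h2⟩
  have h3 := h1 p hp hpS k
  simp only [hps p hp hpS] at h3
  exact h3

/-- the relation for the power sums -/
theorem pow_multi {p : ℕ} (hf : ∀ q, ∀ v ∈ V q p, 0 < f q v)
    (h : ∀ k : ℕ, ∑ q, (c q : ℂ) * ((LL V f E p q).map fun b => b ^ (k + 1)).sum = 0)
    {n : ℕ} (hn : 0 < n) :
    ∑ q, (c q : ℂ) * ∑ v ∈ (V q p).filter (fun v => f q v ∣ n), (f q v : ℂ) *
      ((E q v).map fun a => a ^ (n / f q v)).sum = 0 := by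
  classical
  have h1 := h (n - 1)
  rw [Nat.sub_add_cancel hn] at h1
  rw [← h1]
  refine Finset.sum_congr rfl fun q _ => ?_
  congr 1
  unfold LL
  rw [lstE_sum, Finset.sum_filter]
  refine Finset.sum_congr rfl fun v hv => ?_
  by_cases hd : f q v ∣ n
  · rw [if_pos hd]
    have h3 : ∀ a : ℂ, ((blk (f q v) a).map fun b => b ^ n).sum = (f q v : ℂ) * a ^ (n / f q v) := by
      intro a
      have := blk_pow_sum (e := n / f q v) (hf q v hv) a
      rwa [Nat.mul_div_cancel' hd] at this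
    simp only [h3]
    rw [List.sum_map_mul_left]
  · rw [if_neg hd]
    simp only [blk_pow_zero (hf q v hv) hd, List.map_const', List.sum_replicate, smul_zero]

/-- the relation for the levels -/
theorem level_multi {p : ℕ} (hf : ∀ q, ∀ v ∈ V q p, 0 < f q v) (hne : ∀ q, ∀ v ∈ V q p, ∀ a ∈ E q v, a ≠ 0)
    (h : ∀ k : ℕ, ∑ q, (c q : ℂ) * ((LL V f E p q).map fun b => b ^ (k + 1)).sum = 0) (t : ℝ) :
    ∑ q, c q * ∑ v ∈ V q p, (f q v : ℝ) * ((E q v).map fun a =>
      (open Classical in if Real.log ‖a‖ / f q v = t then (1 : ℝ) else 0)).sum = 0 := by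
  classical
  have h1 := list_all (c := c) (L := LL V f E p) (fun q b hb => by
    obtain ⟨v, hv, a, ha, hb'⟩ := mem_lstE.1 hb
    have h1 := blk_pow (hf q v hv) hb'
    intro h0
    rw [h0, zero_pow (hf q v hv).ne'] at h1
    exact hne q v hv a ha h1.symm) h fun b => if Real.log ‖b‖ = t then (1 : ℝ) else 0
  refine Eq.trans ?_ h1
  refine Finset.sum_congr rfl fun q _ => ?_
  congr 1
  unfold LL
  rw [lstE_sum]
  refine Finset.sum_congr rfl fun v hv => ?_
  have h3 : ∀ a : ℂ, ((blk (f q v) a).map fun b => if Real.log ‖b‖ = t then (1 : ℝ) else 0).sum =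
      (f q v : ℝ) * if Real.log ‖a‖ / f q v = t then (1 : ℝ) else 0 := by
    intro a
    have h4 : ∀ b ∈ blk (f q v) a, (if Real.log ‖b‖ = t then (1 : ℝ) else 0) =
        if Real.log ‖a‖ / f q v = t then (1 : ℝ) else 0 := by
      intro b hb
      rw [blk_level (hf q v hv) hb]
    rw [List.map_congr_left h4, List.map_const', List.sum_replicate, blk_len (hf q v hv), nsmul_eq_mul]
  simp only [h3]
  rw [List.sum_map_mul_left]

end Pool.Agent.U253.MF
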